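import Pool.Agent.Helper58.FS.Br

/-!
# From the Galois group over K to the Galois group over the rationals (pieces C6)
-/

set_option autoImplicit false

open scoped NumberField Pointwise
open NumberField

namespace Pool.Agent.Helper3.FS

open Pool.Agent.Helper58.IQ Pool.Agent.Helper58.FS

section

variable {K : Type*} [Field K] [NumberField K]

theorem toQ_cont (U : Subgroup (GQ (Kb K))) (hU : IsOpen (U : Set (GQ (Kb K)))) :
    IsOpen ((U.comap (toQ K) : Subgroup (GK K)) : Set (GK K)) := by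
  have h1 : (U : Set (GQ (Kb K))) ∈ nhds (1 : GQ (Kb K)) := hU.mem_nhds U.one_mem
  obtain ⟨E, hE, hEU⟩ := (krullTopology_mem_nhds_one_iff ℚ (Kb K) _).1 h1
  have := hE
  let b := Module.finBasis ℚ E
  apply Subgroup.isOpen_of_mem_nhds (g := 1)
  have h2 : (⋂ i, (MulAction.stabilizer (GK K) ((b i : E) : Kb K) : Set (GK K))) ∈
      nhds (1 : GK K) := by
    rw [Filter.iInter_mem]
    intro i
    exact (stabilizer_isOpen_of_isIntegral (K := K) _).mem_nhds (Subgroup.one_mem _)
  refine Filter.mem_of_superset h2 fun g hg => ?_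
  rw [Set.mem_iInter] at hg
  change toQ K g ∈ U
  apply hEU
  rintro ⟨x, hx⟩
  change g x = x
  have h3 : x = ∑ i, (b.repr ⟨x, hx⟩ i) • ((b i : E) : Kb K) := by
    have := congrArg (fun y : E => (y : Kb K)) (b.sum_repr ⟨x, hx⟩)
    refine this.symm.trans ?_
    push_cast
    rfl
  rw [h3]
  change toQ K g _ = _
  rw [map_sum]
  refine Finset.sum_congr rfl fun i _ => ?_
  rw [map_rat_smul]
  congr 1
  exact hg i

theorem isOpen_map (L : Subgroup (GK K)) (hL : IsOpen (L : Set (GK K))) :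
    IsOpen ((L.map (toQ K) : Subgroup (GQ (Kb K))) : Set (GQ (Kb K))) := by
  have h1 : (L : Set (GK K)) ∈ nhds (1 : GK K) := hL.mem_nhds L.one_mem
  obtain ⟨E, hE, hEL⟩ := (krullTopology_mem_nhds_one_iff K (Kb K) _).1 h1
  have := hE
  have hQ : FiniteDimensional ℚ E := FiniteDimensional.trans ℚ K E
  have hE' : FiniteDimensional ℚ (E.restrictScalars ℚ) := hQ
  apply Subgroup.isOpen_of_mem_nhds (g := 1)
  have h2 := (E.restrictScalars ℚ).fixingSubgroup_isOpen.mem_nhds (Subgroup.one_mem _)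
  refine Filter.mem_of_superset h2 fun g hg => ?_
  have hfix : ∀ x ∈ E, g x = x := by
    intro x hx
    exact hg ⟨x, hx⟩
  refine ⟨{ toRingEquiv := g.toRingEquiv, commutes' := fun c => hfix _ (E.algebraMap_mem c) },
    hEL ?_, ?_⟩
  · rintro ⟨x, hx⟩
    exact hfix x hx
  · ext x
    rfl

theorem gcyc_map (p : ℕ) [Fact p.Prime] :
    (Gcyc K p).map (toQ K) = (toQ K).range ⊓ Cyc (Kb K) p := by
  have hk : ∀ g : GK K, g ∈ Gcyc K p ↔ toQ K g ∈ Cyc (Kb K) p := by
    intro g
    rfl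
  ext g
  constructor
  · rintro ⟨g', hg', rfl⟩
    exact ⟨⟨g', rfl⟩, (hk g').1 hg'⟩
  · rintro ⟨⟨g', rfl⟩, hg⟩
    exact ⟨g', (hk g').2 hg, rfl⟩

variable {M : Type*} [AddCommGroup M]

omit [NumberField K] in
theorem exists_trivial [Finite M] (ρ : GK K →* AddMonoid.End M)
    (hρ : ∀ x : M, IsOpen {g : GK K | ρ g x = x}) :
    ∃ U : Subgroup (GK K), IsOpen (U : Set (GK K)) ∧ ∀ g ∈ U, ∀ x, ρ g x = x := by
  let U : Subgroup (GK K) :=
    { carrier := {g | ∀ x, ρ g x = x}
      one_mem' := fun x => by rw [map_one]; rfl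
      mul_mem' := by
        intro g h hg hh x
        rw [map_mul]
        change ρ g (ρ h x) = x
        rw [hh x, hg x]
      inv_mem' := by
        intro g hg x
        have h1 : ρ g⁻¹ (ρ g x) = x := by
          change (ρ g⁻¹ * ρ g) x = x
          rw [← map_mul, inv_mul_cancel, map_one]
          rfl
        rwa [hg x] at h1 }
  refine ⟨U, ?_, fun g hg => hg⟩
  have : (U : Set (GK K)) = ⋂ x : M, {g : GK K | ρ g x = x} := by
    ext g
    rw [Set.mem_iInter]
    rfl
  rw [this]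
  exact isOpen_iInter_of_finite hρ

theorem act_ext [Finite M] (ρ : GK K →* AddMonoid.End M)
    (hρ : ∀ x : M, IsOpen {g : GK K | ρ g x = x}) (H : Subgroup (GK K)) :
    Act (H.map (toQ K)) (extAct ρ) := by
  constructor
  · rw [← map_one (toQ K), extAct_toQ, map_one]
    rfl
  · rintro _ ⟨g, -, rfl⟩ _ ⟨h, -, rfl⟩
    rw [← map_mul, extAct_toQ, extAct_toQ, extAct_toQ, map_mul]
    rfl
  · obtain ⟨U, hU, h⟩ := exists_trivial ρ hρ
    refine ⟨U.map (toQ K), isOpen_map U hU, ?_⟩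
    rintro _ ⟨⟨u, hu, rfl⟩, -⟩
    rw [extAct_toQ]
    ext x
    exact h u hu x

theorem smul_toQ (g : GK K) (P : Ideal (𝓞 (Kb K))) : toQ K g • P = g • P := by
  rfl

open Classical in
/-- restriction of cochains to `H` -/
theorem fin_iff [Finite M] (ρ : GK K →* AddMonoid.End M)
    (hρ : ∀ x : M, IsOpen {g : GK K | ρ g x = x}) (H : Subgroup (GK K)) :
    FinSel ρ H ↔ FinSh (Prm (Kb K)) (extAct ρ) (H.map (toQ K)) := by
  have hmem : ∀ h : H, toQ K (h : GK K) ∈ H.map (toQ K) := fun h => ⟨h, h.2, rfl⟩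
  let r : (GQ (Kb K) → M) →+ (H → M) :=
    { toFun := fun c h => c (toQ K (h : GK K))
      map_zero' := rfl
      map_add' := fun _ _ => rfl }
  have hr : ∀ c ∈ Zsh (Prm (Kb K)) (extAct ρ) (H.map (toQ K)), r c ∈ selZ ρ H := by
    rintro c ⟨h1, ⟨U, hU, h2⟩, h3⟩
    refine ⟨?_, ?_, ?_⟩
    · rw [IsLocallyConstant.iff_exists_open]
      intro g
      have hV := toQ_cont U hU
      refine ⟨(fun h : H => (g : GK K)⁻¹ * (h : GK K)) ⁻¹' ((U.comap (toQ K) : Subgroup (GK K)) : Set (GK K)),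
        hV.preimage (by fun_prop), ?_, ?_⟩
      · change (g : GK K)⁻¹ * (g : GK K) ∈ U.comap (toQ K)
        rw [inv_mul_cancel]
        exact Subgroup.one_mem _
      · intro h hh
        have h4 := h2 (toQ K g) (hmem g) (toQ K ((g : GK K)⁻¹ * (h : GK K)))
          ⟨hh, hmem (g⁻¹ * h)⟩
        rw [← map_mul, mul_inv_cancel_left] at h4
        exact h4
    · intro g h
      have h4 := h1 (toQ K g) (hmem g) (toQ K h) (hmem h)
      rw [← map_mul, extAct_toQ] at h4
      exact h4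
    · intro P hP h0
      obtain ⟨m, hm⟩ := h3 ⟨P, hP, h0⟩
      refine ⟨m, fun g hg => ?_⟩
      have h4 := hm (toQ K g) (hmem g) (Subtype.ext hg)
      rw [extAct_toQ] at h4
      exact h4
  let φ : Zsh (Prm (Kb K)) (extAct ρ) (H.map (toQ K)) →+ selZ ρ H :=
    { toFun := fun c => ⟨r c, hr c c.2⟩
      map_zero' := rfl
      map_add' := fun _ _ => rfl }
  have hφ : Function.Surjective φ := by
    rintro ⟨c, h1, h2, h3⟩
    let c' : GQ (Kb K) → M := fun g => if h : ∃ g' : H, toQ K (g' : GK K) = g then c h.choose else 0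
    have hc' : ∀ g : H, c' (toQ K (g : GK K)) = c g := by
      intro g
      have h : ∃ g' : H, toQ K (g' : GK K) = toQ K (g : GK K) := ⟨g, rfl⟩
      have h5 : h.choose = g := Subtype.ext (toQ_inj K h.choose_spec)
      change (if h : ∃ g' : H, toQ K (g' : GK K) = toQ K (g : GK K) then c h.choose else 0) = c g
      rw [dif_pos h, h5]
    refine ⟨⟨c', ?_, ?_, ?_⟩, Subtype.ext (funext hc')⟩
    · rintro _ ⟨g, hg, rfl⟩ _ ⟨h, hh, rfl⟩
      have h5 := hc' (⟨g, hg⟩ * ⟨h, hh⟩)
      have h6 := hc' ⟨g, hg⟩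
      have h7 := hc' ⟨h, hh⟩
      rw [← map_mul, extAct_toQ]
      change c' (toQ K (g * h)) = _ at h5
      rw [h5, h6, h7, h2]
      rfl
    · have h8 : c 1 = 0 := by
        have := h2 1 1
        rw [mul_one] at this
        simpa using this
      have h9 : IsOpen {g : H | c g = 0} := h1.isOpen_fiber 0
      obtain ⟨V, hV, hVe⟩ := isOpen_induced_iff.1 h9
      have h10 : V ∈ nhds (1 : GK K) := hV.mem_nhds (by
        have : (1 : H) ∈ ((↑) : H → GK K) ⁻¹' V := by
          rw [hVe]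
          exact h8
        exact this)
      obtain ⟨E, hE, hEV⟩ := (krullTopology_mem_nhds_one_iff K (Kb K) _).1 h10
      refine ⟨E.fixingSubgroup.map (toQ K), isOpen_map _ E.fixingSubgroup_isOpen, ?_⟩
      rintro _ ⟨g, hg, rfl⟩ _ ⟨⟨u, hu, rfl⟩, ⟨v, hv, huv⟩⟩
      have huv' : v = u := toQ_inj K huv
      subst huv'
      have h11 : c ⟨v, hv⟩ = 0 := by
        have : (⟨v, hv⟩ : H) ∈ ((↑) : H → GK K) ⁻¹' V := hEV hu
        rw [hVe] at this
        exact this
      have h5 := hc' (⟨g, hg⟩ * ⟨v, hv⟩)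
      have h6 := hc' ⟨g, hg⟩
      rw [← map_mul]
      change c' (toQ K (g * v)) = _ at h5
      rw [h5, h6, h2, h11, map_zero, add_zero]
    · intro P
      obtain ⟨m, hm⟩ := h3 P.1 P.2.1 P.2.2
      refine ⟨m, ?_⟩
      rintro _ ⟨g, hg, rfl⟩ hgP
      have h6 := hc' ⟨g, hg⟩
      have h7 := hm ⟨g, hg⟩ (congrArg Subtype.val hgP)
      rw [extAct_toQ]
      exact h6.trans h7
  have hcomap : ((selB ρ H).addSubgroupOf (selZ ρ H)).comap φ =
      (Bsh (extAct ρ) (H.map (toQ K))).addSubgroupOf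
        (Zsh (Prm (Kb K)) (extAct ρ) (H.map (toQ K))) := by
    ext c
    constructor
    · rintro ⟨m, hm⟩
      refine ⟨m, ?_⟩
      rintro _ ⟨g, hg, rfl⟩
      rw [extAct_toQ]
      exact hm ⟨g, hg⟩
    · rintro ⟨m, hm⟩
      refine ⟨m, fun g => ?_⟩
      have := hm (toQ K g) (hmem g)
      rw [extAct_toQ] at this
      exact this
  have hidx : (Bsh (extAct ρ) (H.map (toQ K))).relIndex
      (Zsh (Prm (Kb K)) (extAct ρ) (H.map (toQ K))) = Nat.card (Sel ρ H) := by
    have := AddSubgroup.index_comap_of_surjective ((selB ρ H).addSubgroupOf (selZ ρ H)) hφ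
    rw [hcomap] at this
    exact this
  unfold FinSel FinSh
  rw [hidx]
  constructor
  · intro h
    exact Nat.card_pos.ne'
  · intro h
    exact Nat.finite_of_card_ne_zero h

end

end Pool.Agent.Helper3.FS
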