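import Mathlib

/-!
# The ring of integers of an infinite Galois extension: invariants, transitivity, decomposition
-/

set_option autoImplicit false

open scoped NumberField Pointwise
open NumberField

namespace Pool.Agent.Helper3.FS

section

variable (K Ω : Type*) [Field K] [CharZero K] [Field Ω] [CharZero Ω] [Algebra K Ω] [IsGalois K Ω]

instance invariant_ringOfIntegers : Algebra.IsInvariant (𝓞 K) (𝓞 Ω) (Ω ≃ₐ[K] Ω) := by
  constructor
  intro b hb
  have h1 : (b : Ω) ∈ Set.range (algebraMap K Ω) := by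
    rw [InfiniteGalois.mem_range_algebraMap_iff_fixed]
    intro g
    have := congrArg (algebraMap (𝓞 Ω) Ω) (hb g)
    exact this
  obtain ⟨k, hk⟩ := h1
  have h2 : IsIntegral ℤ k := by
    have h3 : IsIntegral ℤ (algebraMap K Ω k) := by
      rw [hk]
      exact RingOfIntegers.isIntegral_coe b
    exact (isIntegral_algebraMap_iff (FaithfulSMul.algebraMap_injective K Ω)).1 h3
  refine ⟨⟨k, h2⟩, ?_⟩
  apply RingOfIntegers.ext
  exact hk

instance comm_ringOfIntegers : SMulCommClass (Ω ≃ₐ[K] Ω) (𝓞 K) (𝓞 Ω) := by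
  constructor
  intro g a b
  apply RingOfIntegers.ext
  rw [Algebra.smul_def, Algebra.smul_def]
  change g ((algebraMap K Ω a) * b) = algebraMap K Ω a * g b
  rw [map_mul, AlgEquiv.commutes]

omit [CharZero K] [CharZero Ω] in
theorem continuousSMul_ringOfIntegers [TopologicalSpace (𝓞 Ω)] [DiscreteTopology (𝓞 Ω)] :
    ContinuousSMul (Ω ≃ₐ[K] Ω) (𝓞 Ω) := by
  rw [continuousSMul_iff_stabilizer_isOpen]
  intro x
  have h1 := stabilizer_isOpen_of_isIntegral (K := K) (x : Ω)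
  have h2 : (MulAction.stabilizer (Ω ≃ₐ[K] Ω) x : Set (Ω ≃ₐ[K] Ω)) =
      MulAction.stabilizer (Ω ≃ₐ[K] Ω) (x : Ω) := by
    ext g
    simp only [SetLike.mem_coe, MulAction.mem_stabilizer_iff]
    constructor
    · intro h
      exact congrArg (algebraMap (𝓞 Ω) Ω) h
    · intro h
      exact RingOfIntegers.ext h
  rw [h2]
  exact h1

/-- transitivity on the primes above a prime of `K` -/
theorem exists_smul_eq (P Q : Ideal (𝓞 Ω)) [P.IsPrime] [Q.IsPrime]
    (h : P.under (𝓞 K) = Q.under (𝓞 K)) : ∃ g : Ω ≃ₐ[K] Ω, Q = g • P := by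
  let _ : TopologicalSpace (𝓞 Ω) := ⊥
  have : DiscreteTopology (𝓞 Ω) := ⟨rfl⟩
  have := continuousSMul_ringOfIntegers K Ω
  exact Algebra.IsInvariant.exists_smul_of_under_eq_of_profinite (A := 𝓞 K) (G := Ω ≃ₐ[K] Ω) P Q h

/-- the decomposition group is onto the automorphisms of the residue ring -/
theorem exists_lift (P : Ideal (𝓞 Ω)) [P.IsPrime]
    (σ : (𝓞 Ω ⧸ P) ≃ₐ[𝓞 K ⧸ P.under (𝓞 K)] (𝓞 Ω ⧸ P)) :
    ∃ g : Ω ≃ₐ[K] Ω, g • P = P ∧
      ∀ x : 𝓞 Ω, Ideal.Quotient.mk P (g • x) = σ (Ideal.Quotient.mk P x) := by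
  let _ : TopologicalSpace (𝓞 Ω) := ⊥
  have : DiscreteTopology (𝓞 Ω) := ⟨rfl⟩
  have := continuousSMul_ringOfIntegers K Ω
  obtain ⟨g, hg⟩ := Ideal.Quotient.stabilizerHom_surjective_of_profinite (G := Ω ≃ₐ[K] Ω)
    (P.under (𝓞 K)) P σ
  refine ⟨g.1, g.2, fun x => ?_⟩
  rw [← hg]
  rfl

end

end Pool.Agent.Helper3.FS
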