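import Pool.Agent.Helper58.FS.Prm
import Pool.Agent.Helper3.FS.Inv

/-!
# Elements of decomposition groups with a given cyclotomic action
-/

set_option autoImplicit false

open scoped NumberField Pointwise
open NumberField

namespace Pool.Agent.Helper3.FS

open Pool.Agent.Helper58.FS

variable {Ω : Type*} [Field Ω] [CharZero Ω]

omit [CharZero Ω] in
/-- roots of unity of order prime to `P` inject modulo `P` -/
theorem roots_inj (P : Ideal (𝓞 Ω)) [P.IsPrime] {N : ℕ} (hN : (N : 𝓞 Ω) ∉ P) {a b : 𝓞 Ω}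
    (ha : a ^ N = 1) (hb : b ^ N = 1) (h : a - b ∈ P) : a = b := by
  have hN0 : N ≠ 0 := by
    rintro rfl
    apply hN
    rw [Nat.cast_zero]
    exact P.zero_mem
  set ε := a * b ^ (N - 1) with hε
  have hbN : b * b ^ (N - 1) = 1 := by
    rw [← pow_succ', Nat.sub_add_cancel (Nat.pos_of_ne_zero hN0), hb]
  have h1 : ε ^ N = 1 := by
    rw [hε, mul_pow, ha, one_mul, ← pow_mul, mul_comm, pow_mul, hb, one_pow]
  have h2 : ε - 1 ∈ P := by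
    have : ε - 1 = b ^ (N - 1) * (a - b) := by
      rw [hε]
      linear_combination hbN
    rw [this]
    exact P.mul_mem_left _ h
  have h3 : ε = 1 := by
    by_contra hne
    apply hN
    have h4 : (ε - 1) * ∑ i ∈ Finset.range N, ε ^ i = 0 := by
      rw [mul_geom_sum, h1, sub_self]
    have h5 : ∑ i ∈ Finset.range N, ε ^ i = 0 :=
      (mul_eq_zero.1 h4).resolve_left (sub_ne_zero.2 hne)
    have h6 : ∑ i ∈ Finset.range N, (ε ^ i - 1) ∈ P := by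
      apply P.sum_mem
      intro i _
      have : ε ^ i - 1 = (∑ j ∈ Finset.range i, ε ^ j) * (ε - 1) := (geom_sum_mul ε i).symm
      rw [this]
      exact P.mul_mem_left _ h2
    rw [Finset.sum_sub_distrib, h5] at h6
    simp only [Finset.sum_const, Finset.card_range, nsmul_eq_mul, mul_one, zero_sub] at h6
    exact (neg_mem_iff).1 h6
  calc a = a * (b * b ^ (N - 1)) := by rw [hbN, mul_one]
    _ = ε * b := by rw [hε]; ring
    _ = b := by rw [h3, one_mul]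

theorem prime_not_mem (P : Ideal (𝓞 Ω)) [hP : P.IsPrime] {l p : ℕ} (hl : l.Prime) (hp : p.Prime)
    (hlp : l ≠ p) (h : (l : 𝓞 Ω) ∈ P) (n : ℕ) : ((p ^ n : ℕ) : 𝓞 Ω) ∉ P := by
  intro h1
  have h2 : IsCoprime (l : ℤ) ((p ^ n : ℕ) : ℤ) :=
    Nat.isCoprime_iff_coprime.2 (Nat.Coprime.pow_right n ((Nat.coprime_primes hl hp).2 hlp))
  obtain ⟨u, v, huv⟩ := h2
  have h3 : (u : 𝓞 Ω) * (l : 𝓞 Ω) + (v : 𝓞 Ω) * ((p ^ n : ℕ) : 𝓞 Ω) = 1 := by
    exact_mod_cast congrArg (Int.cast : ℤ → 𝓞 Ω) huv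
  apply hP.ne_top
  rw [Ideal.eq_top_iff_one, ← h3]
  exact P.add_mem (P.mul_mem_left _ h) (P.mul_mem_left _ h1)

theorem isGalois_Q [IsAlgClosed Ω] [Algebra.IsAlgebraic ℚ Ω] : IsGalois ℚ Ω := by
  have : IsAlgClosure ℚ Ω := ⟨inferInstance, inferInstance⟩
  infer_instance

theorem rat_int (a : 𝓞 ℚ) : ∃ m : ℤ, a = (m : 𝓞 ℚ) := by
  refine ⟨Rat.ringOfIntegersEquiv a, ?_⟩
  apply Rat.ringOfIntegersEquiv.injective
  rw [map_intCast, Int.cast_id]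

theorem ar3a [IsAlgClosed Ω] [Algebra.IsAlgebraic ℚ Ω] (p : ℕ) [Fact p.Prime]
    (l : ℕ) (hl : l.Prime) (hlp : l ≠ p) (P : Prm Ω) (hP : (l : 𝓞 Ω) ∈ P.1) :
    ∃ h : GQ Ω, h • P = P ∧ ∀ (n : ℕ) (z : Ω), z ^ p ^ n = 1 → h z = z ^ l := by
  have hPp : P.1.IsPrime := P.2.1
  have hG : IsGalois ℚ Ω := isGalois_Q
  have hlf : Fact l.Prime := ⟨hl⟩
  have hl0 : (l : 𝓞 Ω ⧸ P.1) = 0 := by
    have := Ideal.Quotient.eq_zero_iff_mem.2 hP
    rwa [map_natCast] at this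
  have hchar : CharP (𝓞 Ω ⧸ P.1) l := (CharP.charP_iff_prime_eq_zero hl).2 hl0
  have hexp : ExpChar (𝓞 Ω ⧸ P.1) l := ExpChar.prime hl
  have hbij : Function.Bijective (frobenius (𝓞 Ω ⧸ P.1) l) := by
    constructor
    · exact frobenius_inj _ _
    · intro x
      obtain ⟨a, rfl⟩ := Ideal.Quotient.mk_surjective x
      obtain ⟨y, hy⟩ := IsAlgClosed.exists_pow_nat_eq (a : Ω) hl.pos
      have hyi : IsIntegral ℤ y := by
        apply IsIntegral.of_pow hl.pos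
        rw [hy]
        exact RingOfIntegers.isIntegral_coe a
      obtain ⟨w, hw⟩ : ∃ w : 𝓞 Ω, algebraMap (𝓞 Ω) Ω w = y := ⟨⟨y, hyi⟩, rfl⟩
      have hwa : w ^ l = a := by
        apply FaithfulSMul.algebraMap_injective (𝓞 Ω) Ω
        rw [map_pow, hw, hy]
      refine ⟨Ideal.Quotient.mk P.1 w, ?_⟩
      rw [frobenius_def, ← map_pow, hwa]
  let e : (𝓞 Ω ⧸ P.1) ≃+* (𝓞 Ω ⧸ P.1) := RingEquiv.ofBijective _ hbij
  let σ : (𝓞 Ω ⧸ P.1) ≃ₐ[𝓞 ℚ ⧸ P.1.under (𝓞 ℚ)] (𝓞 Ω ⧸ P.1) := AlgEquiv.ofRingEquiv (f := e) (by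
    intro r
    obtain ⟨a, rfl⟩ := Ideal.Quotient.mk_surjective r
    obtain ⟨m, rfl⟩ := rat_int a
    simp only [map_intCast])
  obtain ⟨g, hg1, hg2⟩ := exists_lift ℚ Ω P.1 σ
  refine ⟨g, Subtype.ext hg1, fun n z hz => ?_⟩
  have hzi : IsIntegral ℤ z := by
    apply IsIntegral.of_pow (n := p ^ n) (pow_pos (Fact.out : p.Prime).pos n)
    rw [hz]
    exact isIntegral_one
  obtain ⟨y, hy⟩ : ∃ y : 𝓞 Ω, algebraMap (𝓞 Ω) Ω y = z := ⟨⟨z, hzi⟩, rfl⟩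
  have hy1 : y ^ p ^ n = 1 := by
    apply FaithfulSMul.algebraMap_injective (𝓞 Ω) Ω
    rw [map_pow, hy, hz, map_one]
  have h1 : g • y = y ^ l := by
    apply roots_inj P.1 (prime_not_mem P.1 hl (Fact.out : p.Prime) hlp hP n)
    · rw [← smul_pow', hy1, smul_one]
    · rw [← pow_mul, mul_comm, pow_mul, hy1, one_pow]
    · rw [← Ideal.Quotient.eq, hg2, map_pow]
      rfl
  have h2 := congrArg (algebraMap (𝓞 Ω) Ω) h1
  rw [map_pow, hy] at h2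
  rw [← h2, ← hy]
  rfl

theorem ar3b_succ [IsAlgClosed Ω] [Algebra.IsAlgebraic ℚ Ω] (p : ℕ) [Fact p.Prime]
    (P : Prm Ω) (hP : (p : 𝓞 Ω) ∈ P.1) (g : GQ Ω) (n : ℕ) :
    ∃ h : GQ Ω, h • P = P ∧ ∀ z : Ω, z ^ p ^ (n + 1) = 1 → h z = g z := by
  have hp : p.Prime := Fact.out
  have hPp : P.1.IsPrime := P.2.1
  have hgP : (g • P).1.IsPrime := (g • P).2.1
  have hp0 : ((p ^ (n + 1) : ℕ) : Ω) ≠ 0 := by
    exact_mod_cast (pow_pos hp.pos (n + 1)).ne'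
  have : NeZero ((p ^ (n + 1) : ℕ) : Ω) := ⟨hp0⟩
  obtain ⟨ζ, hζ⟩ := HasEnoughRootsOfUnity.exists_primitiveRoot Ω (p ^ (n + 1))
  let K := IntermediateField.adjoin ℚ {ζ}
  have hint : IsIntegral ℚ ζ := Algebra.IsIntegral.isIntegral ζ
  have hfin : FiniteDimensional ℚ K := IntermediateField.adjoin.finiteDimensional hint
  have hNF : NumberField K := ⟨⟩
  have hcyc : IsCyclotomicExtension {p ^ (n + 1)} ℚ K :=
    hζ.intermediateField_adjoin_isCyclotomicExtension ℚ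
  have hGK : IsGalois K Ω := by
    have : IsGalois ℚ Ω := isGalois_Q
    infer_instance
  have key : ∀ Q : Ideal (𝓞 Ω), Q.IsPrime → (p : 𝓞 Ω) ∈ Q →
      Q.under (𝓞 K) = Ideal.span {hcyc.zeta_spec.toInteger - 1} := by
    intro Q hQ hpQ
    have h1 : (Q.under (𝓞 K)).IsPrime := inferInstance
    have h2 : (Q.under (𝓞 K)).LiesOver (Ideal.span {(p : ℤ)}) := by
      rw [Ideal.liesOver_iff]
      refine Ideal.IsMaximal.eq_of_le (Int.ideal_span_isMaximal_of_prime p)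
        Ideal.IsPrime.ne_top' ?_
      rw [Ideal.span_singleton_le_iff_mem, Ideal.mem_comap, algebraMap_int_eq, map_natCast]
      change (algebraMap (𝓞 K) (𝓞 Ω)) (p : 𝓞 K) ∈ Q
      rw [map_natCast]
      exact hpQ
    exact IsCyclotomicExtension.Rat.eq_span_zeta_sub_one_of_liesOver p n K hcyc.zeta_spec _
  have hpg : (p : 𝓞 Ω) ∈ (g • P).1 := by
    rw [smul_prm, Ideal.mem_pointwise_smul_iff_inv_smul_mem]
    have : g⁻¹ • (p : 𝓞 Ω) = (p : 𝓞 Ω) := by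
      change MulSemiringAction.toRingHom (GQ Ω) (𝓞 Ω) g⁻¹ (p : 𝓞 Ω) = _
      rw [map_natCast]
    rw [this]
    exact hP
  obtain ⟨τ, hτ⟩ := exists_smul_eq K Ω (g • P).1 P.1 ((key _ hgP hpg).trans (key _ hPp hP).symm)
  have hτ' : (AlgEquiv.restrictScalars ℚ τ : GQ Ω) • (g • P).1 = P.1 := by
    rw [hτ]
    rfl
  refine ⟨(AlgEquiv.restrictScalars ℚ τ : GQ Ω) * g, ?_, fun z hz => ?_⟩
  · rw [mul_smul]
    exact Subtype.ext hτ'
  · have h1 : (g z) ^ p ^ (n + 1) = 1 := by rw [← map_pow, hz, map_one]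
    have : NeZero (p ^ (n + 1)) := ⟨(pow_pos hp.pos (n + 1)).ne'⟩
    obtain ⟨i, -, hi⟩ := hζ.eq_pow_of_pow_eq_one h1
    change τ (g z) = g z
    rw [← hi]
    exact τ.commutes (⟨ζ, IntermediateField.mem_adjoin_simple_self ℚ ζ⟩ ^ i : K)

theorem ar3b [IsAlgClosed Ω] [Algebra.IsAlgebraic ℚ Ω] (p : ℕ) [Fact p.Prime]
    (P : Prm Ω) (hP : (p : 𝓞 Ω) ∈ P.1) (g : GQ Ω) (n : ℕ) :
    ∃ h : GQ Ω, h • P = P ∧ ∀ z : Ω, z ^ p ^ n = 1 → h z = g z := by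
  obtain ⟨h, h1, h2⟩ := ar3b_succ p P hP g n
  refine ⟨h, h1, fun z hz => h2 z ?_⟩
  rw [pow_succ, pow_mul, hz, one_pow]

end Pool.Agent.Helper3.FS
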