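import Pool.Agent.Helper3.FS.BridgeH

/-!
# Modules of a subgroup: continuity and restriction
-/

set_option autoImplicit false

open scoped NumberField Pointwise
open NumberField

namespace Pool.Agent.Helper3.FS

open Pool.Agent.Helper58.IQ Pool.Agent.Helper58.FS Pool.Agent.Helper58.P3

variable {K : Type*} [Field K] [NumberField K] {M : Type*} [AddCommGroup M]

/-- `extH` is a continuous action of `H.map (toQ K)` if `ρ` is trivial on an open subgroup. -/
theorem act_extH (H : Subgroup (GK K)) (ρ : H →* AddMonoid.End M)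
    (hρ : ∃ U : Subgroup (GK K), IsOpen (U : Set (GK K)) ∧ ∀ g : H, (g : GK K) ∈ U →
      ∀ x, ρ g x = x) :
    Act (H.map (toQ K)) (extH H ρ) := by
  constructor
  · have h1 := extH_toQ H ρ 1
    rw [map_one] at h1
    have h2 : toQ K ((1 : H) : GK K) = 1 := by
      rw [Subgroup.coe_one, map_one]
    rw [h2] at h1
    exact h1
  · rintro _ ⟨g, hg, rfl⟩ _ ⟨h, hh, rfl⟩
    have h1 := extH_toQ H ρ (⟨g, hg⟩ * ⟨h, hh⟩)
    have h2 := extH_toQ H ρ ⟨g, hg⟩
    have h3 := extH_toQ H ρ ⟨h, hh⟩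
    rw [← map_mul]
    refine h1.trans ?_
    change extH H ρ (toQ K g) = _ at h2
    change extH H ρ (toQ K h) = _ at h3
    rw [h2, h3, map_mul]
    rfl
  · obtain ⟨U, hU, h⟩ := hρ
    refine ⟨U.map (toQ K), isOpen_map U hU, ?_⟩
    rintro _ ⟨⟨u, hu, rfl⟩, ⟨v, hv, huv⟩⟩
    have huv' : v = u := toQ_inj K huv
    subst huv'
    have h1 := extH_toQ H ρ ⟨v, hv⟩
    refine h1.trans ?_
    ext x
    exact h ⟨v, hv⟩ hu x

/-- the module `ρ` of the whole group, restricted to `H` -/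
theorem extH_comp (ρ : GK K →* AddMonoid.End M) (H : Subgroup (GK K)) :
    ∀ g ∈ H.map (toQ K), extH H (ρ.comp H.subtype) g = extAct ρ g := by
  rintro _ ⟨g, hg, rfl⟩
  have h1 := extH_toQ H (ρ.comp H.subtype) ⟨g, hg⟩
  refine h1.trans ?_
  rw [extAct_toQ]
  rfl

/-- restriction to a smaller subgroup -/
theorem extH_restr {H H' : Subgroup (GK K)} (h : H' ≤ H) (ρ : H →* AddMonoid.End M) :
    ∀ g ∈ H'.map (toQ K), extH H' (ρ.comp (Subgroup.inclusion h)) g = extH H ρ g := by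
  rintro _ ⟨g, hg, rfl⟩
  have h1 := extH_toQ H' (ρ.comp (Subgroup.inclusion h)) ⟨g, hg⟩
  have h2 := extH_toQ H ρ ⟨g, h hg⟩
  exact h1.trans h2.symm

omit [NumberField K] in
theorem finSelH_comp (ρ : GK K →* AddMonoid.End M) (H : Subgroup (GK K)) :
    FinSelH H (ρ.comp H.subtype) ↔ FinSel ρ H := Iff.rfl

end Pool.Agent.Helper3.FS
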