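import Pool.Agent.Helper58.P3.ExtH
import Pool.Agent.Helper3.FS.Bridge

/-!
# The bridge for modules of a subgroup (piece E2)
-/

set_option autoImplicit false

open scoped NumberField Pointwise
open NumberField

namespace Pool.Agent.Helper3.FS

open Pool.Agent.Helper58.IQ Pool.Agent.Helper58.FS Pool.Agent.Helper58.P3

open Classical in
/-- restriction of cochains to `H` -/
theorem fin_iffH {K : Type*} [Field K] [NumberField K] {M : Type*} [AddCommGroup M]
    (H : Subgroup (GK K)) (ρ : H →* AddMonoid.End M) :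
    FinSelH H ρ ↔ FinSh (Prm (Kb K)) (extH H ρ) (H.map (toQ K)) := by
  have hmem : ∀ h : H, toQ K (h : GK K) ∈ H.map (toQ K) := fun h => ⟨h, h.2, rfl⟩
  let r : (GQ (Kb K) → M) →+ (H → M) :=
    { toFun := fun c h => c (toQ K (h : GK K))
      map_zero' := rfl
      map_add' := fun _ _ => rfl }
  have hr : ∀ c ∈ Zsh (Prm (Kb K)) (extH H ρ) (H.map (toQ K)), r c ∈ selZH H ρ := by
    rintro c ⟨h1, ⟨U, hU, h2⟩, h3⟩
    refine ⟨?_, ?_, ?_⟩
    · rw [IsLocallyConstant.iff_exists_open]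
      intro g
      have hV := toQ_cont U hU
      refine ⟨(fun h : H => (g : GK K)⁻¹ * (h : GK K)) ⁻¹' ((U.comap (toQ K) : Subgroup (GK K)) : Set (GK K)),
        hV.preimage (by fun_prop), ?_, ?_⟩
      · change (g : GK K)⁻¹ * (g : GK K) ∈ U.comap (toQ K)
        rw [inv_mul_cancel]
        exact Subgroup.one_mem _
      · intro h hh
        have h4 := h2 (toQ K g) (hmem g) (toQ K ((g : GK K)⁻¹ * (h : GK K)))
          ⟨hh, hmem (g⁻¹ * h)⟩
        rw [← map_mul, mul_inv_cancel_left] at h4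
        exact h4
    · intro g h
      have h4 := h1 (toQ K g) (hmem g) (toQ K h) (hmem h)
      rw [← map_mul, extH_toQ] at h4
      exact h4
    · intro P hP h0
      obtain ⟨m, hm⟩ := h3 ⟨P, hP, h0⟩
      refine ⟨m, fun g hg => ?_⟩
      have h4 := hm (toQ K g) (hmem g) (Subtype.ext hg)
      rw [extH_toQ] at h4
      exact h4
  let φ : Zsh (Prm (Kb K)) (extH H ρ) (H.map (toQ K)) →+ selZH H ρ :=
    { toFun := fun c => ⟨r c, hr c c.2⟩
      map_zero' := rfl
      map_add' := fun _ _ => rfl }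
  have hφ : Function.Surjective φ := by
    rintro ⟨c, h1, h2, h3⟩
    let c' : GQ (Kb K) → M := fun g => if h : ∃ g' : H, toQ K (g' : GK K) = g then c h.choose else 0
    have hc' : ∀ g : H, c' (toQ K (g : GK K)) = c g := by
      intro g
      have h : ∃ g' : H, toQ K (g' : GK K) = toQ K (g : GK K) := ⟨g, rfl⟩
      have h5 : h.choose = g := Subtype.ext (toQ_inj K h.choose_spec)
      change (if h : ∃ g' : H, toQ K (g' : GK K) = toQ K (g : GK K) then c h.choose else 0) = c g
      rw [dif_pos h, h5]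
    refine ⟨⟨c', ?_, ?_, ?_⟩, Subtype.ext (funext hc')⟩
    · rintro _ ⟨g, hg, rfl⟩ _ ⟨h, hh, rfl⟩
      have h5 := hc' (⟨g, hg⟩ * ⟨h, hh⟩)
      have h6 := hc' ⟨g, hg⟩
      have h7 := hc' ⟨h, hh⟩
      have h8 := extH_toQ H ρ ⟨g, hg⟩
      rw [← map_mul]
      change c' (toQ K (g * h)) = _ at h5
      change extH H ρ (toQ K g) = _ at h8
      rw [h5, h6, h7, h2, h8]
      rfl
    · have h8 : c 1 = 0 := by
        have := h2 1 1
        rw [mul_one, map_one] at this
        simpa using this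
      have h9 : IsOpen {g : H | c g = 0} := h1.isOpen_fiber 0
      obtain ⟨V, hV, hVe⟩ := isOpen_induced_iff.1 h9
      have h10 : V ∈ nhds (1 : GK K) := hV.mem_nhds (by
        have : (1 : H) ∈ ((↑) : H → GK K) ⁻¹' V := by
          rw [hVe]
          exact h8
        exact this)
      obtain ⟨E, hE, hEV⟩ := (krullTopology_mem_nhds_one_iff K (Kb K) _).1 h10
      refine ⟨E.fixingSubgroup.map (toQ K), isOpen_map _ E.fixingSubgroup_isOpen, ?_⟩
      rintro _ ⟨g, hg, rfl⟩ _ ⟨⟨u, hu, rfl⟩, ⟨v, hv, huv⟩⟩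
      have huv' : v = u := toQ_inj K huv
      subst huv'
      have h11 : c ⟨v, hv⟩ = 0 := by
        have : (⟨v, hv⟩ : H) ∈ ((↑) : H → GK K) ⁻¹' V := hEV hu
        rw [hVe] at this
        exact this
      have h5 := hc' (⟨g, hg⟩ * ⟨v, hv⟩)
      have h6 := hc' ⟨g, hg⟩
      rw [← map_mul]
      change c' (toQ K (g * v)) = _ at h5
      rw [h5, h6, h2, h11, map_zero, add_zero]
    · intro P
      obtain ⟨m, hm⟩ := h3 P.1 P.2.1 P.2.2
      refine ⟨m, ?_⟩
      rintro _ ⟨g, hg, rfl⟩ hgP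
      have h6 := hc' ⟨g, hg⟩
      have h7 := hm ⟨g, hg⟩ (congrArg Subtype.val hgP)
      have h8 := extH_toQ H ρ ⟨g, hg⟩
      change extH H ρ (toQ K g) = _ at h8
      rw [h8]
      exact h6.trans h7
  have hcomap : ((selBH H ρ).addSubgroupOf (selZH H ρ)).comap φ =
      (Bsh (extH H ρ) (H.map (toQ K))).addSubgroupOf
        (Zsh (Prm (Kb K)) (extH H ρ) (H.map (toQ K))) := by
    ext c
    constructor
    · rintro ⟨m, hm⟩
      refine ⟨m, ?_⟩
      rintro _ ⟨g, hg, rfl⟩
      have h8 := extH_toQ H ρ ⟨g, hg⟩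
      change extH H ρ (toQ K g) = _ at h8
      rw [h8]
      exact hm ⟨g, hg⟩
    · rintro ⟨m, hm⟩
      refine ⟨m, fun g => ?_⟩
      have := hm (toQ K g) (hmem g)
      rw [extH_toQ] at this
      exact this
  have hidx : (Bsh (extH H ρ) (H.map (toQ K))).relIndex
      (Zsh (Prm (Kb K)) (extH H ρ) (H.map (toQ K))) =
      Nat.card (selZH H ρ ⧸ (selBH H ρ).addSubgroupOf (selZH H ρ)) := by
    have := AddSubgroup.index_comap_of_surjective ((selBH H ρ).addSubgroupOf (selZH H ρ)) hφ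
    rw [hcomap] at this
    exact this
  unfold FinSelH FinSh
  rw [hidx]
  constructor
  · intro h
    exact Nat.card_pos.ne'
  · intro h
    exact Nat.finite_of_card_ne_zero h

end Pool.Agent.Helper3.FS
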