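import Pool.Agent.Helper3.FS.Bridge
import Pool.Agent.Helper58.FS.Inf
import Pool.Agent.Helper58.FS.CS

/-!
# The bridge for infinite modules (pieces D6)
-/

set_option autoImplicit false

open scoped NumberField Pointwise
open NumberField

namespace Pool.Agent.Helper3.FS

open Pool.Agent.Helper58.IQ Pool.Agent.Helper58.FS

section

variable {K : Type*} [Field K] [NumberField K] {M : Type*} [AddCommGroup M]

open Classical in
/-- restriction of cochains to `H` -/
theorem exists_restr (ρ : GK K →* AddMonoid.End M) (H : Subgroup (GK K)) :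
    ∃ φ : Zsh (Prm (Kb K)) (extAct ρ) (H.map (toQ K)) →+ selZ ρ H,
      Function.Surjective φ ∧ ∀ c (n : ℕ), n • (φ c : H → M) ∈ selB ρ H ↔
        n • (c : GQ (Kb K) → M) ∈ Bsh (extAct ρ) (H.map (toQ K)) := by
  have hmem : ∀ h : H, toQ K (h : GK K) ∈ H.map (toQ K) := fun h => ⟨h, h.2, rfl⟩
  let r : (GQ (Kb K) → M) →+ (H → M) :=
    { toFun := fun c h => c (toQ K (h : GK K))
      map_zero' := rfl
      map_add' := fun _ _ => rfl }
  have hr : ∀ c ∈ Zsh (Prm (Kb K)) (extAct ρ) (H.map (toQ K)), r c ∈ selZ ρ H := by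
    rintro c ⟨h1, ⟨U, hU, h2⟩, h3⟩
    refine ⟨?_, ?_, ?_⟩
    · rw [IsLocallyConstant.iff_exists_open]
      intro g
      have hV := toQ_cont U hU
      refine ⟨(fun h : H => (g : GK K)⁻¹ * (h : GK K)) ⁻¹' ((U.comap (toQ K) : Subgroup (GK K)) : Set (GK K)),
        hV.preimage (by fun_prop), ?_, ?_⟩
      · change (g : GK K)⁻¹ * (g : GK K) ∈ U.comap (toQ K)
        rw [inv_mul_cancel]
        exact Subgroup.one_mem _
      · intro h hh
        have h4 := h2 (toQ K g) (hmem g) (toQ K ((g : GK K)⁻¹ * (h : GK K)))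
          ⟨hh, hmem (g⁻¹ * h)⟩
        rw [← map_mul, mul_inv_cancel_left] at h4
        exact h4
    · intro g h
      have h4 := h1 (toQ K g) (hmem g) (toQ K h) (hmem h)
      rw [← map_mul, extAct_toQ] at h4
      exact h4
    · intro P hP h0
      obtain ⟨m, hm⟩ := h3 ⟨P, hP, h0⟩
      refine ⟨m, fun g hg => ?_⟩
      have h4 := hm (toQ K g) (hmem g) (Subtype.ext hg)
      rw [extAct_toQ] at h4
      exact h4
  let φ : Zsh (Prm (Kb K)) (extAct ρ) (H.map (toQ K)) →+ selZ ρ H :=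
    { toFun := fun c => ⟨r c, hr c c.2⟩
      map_zero' := rfl
      map_add' := fun _ _ => rfl }
  have hφ : Function.Surjective φ := by
    rintro ⟨c, h1, h2, h3⟩
    let c' : GQ (Kb K) → M := fun g => if h : ∃ g' : H, toQ K (g' : GK K) = g then c h.choose else 0
    have hc' : ∀ g : H, c' (toQ K (g : GK K)) = c g := by
      intro g
      have h : ∃ g' : H, toQ K (g' : GK K) = toQ K (g : GK K) := ⟨g, rfl⟩
      have h5 : h.choose = g := Subtype.ext (toQ_inj K h.choose_spec)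
      change (if h : ∃ g' : H, toQ K (g' : GK K) = toQ K (g : GK K) then c h.choose else 0) = c g
      rw [dif_pos h, h5]
    refine ⟨⟨c', ?_, ?_, ?_⟩, Subtype.ext (funext hc')⟩
    · rintro _ ⟨g, hg, rfl⟩ _ ⟨h, hh, rfl⟩
      have h5 := hc' (⟨g, hg⟩ * ⟨h, hh⟩)
      have h6 := hc' ⟨g, hg⟩
      have h7 := hc' ⟨h, hh⟩
      rw [← map_mul, extAct_toQ]
      change c' (toQ K (g * h)) = _ at h5
      rw [h5, h6, h7, h2]
      rfl
    · have h8 : c 1 = 0 := by
        have := h2 1 1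
        rw [mul_one] at this
        simpa using this
      have h9 : IsOpen {g : H | c g = 0} := h1.isOpen_fiber 0
      obtain ⟨V, hV, hVe⟩ := isOpen_induced_iff.1 h9
      have h10 : V ∈ nhds (1 : GK K) := hV.mem_nhds (by
        have : (1 : H) ∈ ((↑) : H → GK K) ⁻¹' V := by
          rw [hVe]
          exact h8
        exact this)
      obtain ⟨E, hE, hEV⟩ := (krullTopology_mem_nhds_one_iff K (Kb K) _).1 h10
      refine ⟨E.fixingSubgroup.map (toQ K), isOpen_map _ E.fixingSubgroup_isOpen, ?_⟩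
      rintro _ ⟨g, hg, rfl⟩ _ ⟨⟨u, hu, rfl⟩, ⟨v, hv, huv⟩⟩
      have huv' : v = u := toQ_inj K huv
      subst huv'
      have h11 : c ⟨v, hv⟩ = 0 := by
        have : (⟨v, hv⟩ : H) ∈ ((↑) : H → GK K) ⁻¹' V := hEV hu
        rw [hVe] at this
        exact this
      have h5 := hc' (⟨g, hg⟩ * ⟨v, hv⟩)
      have h6 := hc' ⟨g, hg⟩
      rw [← map_mul]
      change c' (toQ K (g * v)) = _ at h5
      rw [h5, h6, h2, h11, map_zero, add_zero]
    · intro P
      obtain ⟨m, hm⟩ := h3 P.1 P.2.1 P.2.2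
      refine ⟨m, ?_⟩
      rintro _ ⟨g, hg, rfl⟩ hgP
      have h6 := hc' ⟨g, hg⟩
      have h7 := hm ⟨g, hg⟩ (congrArg Subtype.val hgP)
      rw [extAct_toQ]
      exact h6.trans h7
  refine ⟨φ, hφ, fun c n => ?_⟩
  constructor
  · rintro ⟨m, hm⟩
    refine ⟨m, ?_⟩
    rintro _ ⟨g, hg, rfl⟩
    rw [extAct_toQ]
    exact hm ⟨g, hg⟩
  · rintro ⟨m, hm⟩
    refine ⟨m, fun g => ?_⟩
    have := hm (toQ K g) (hmem g)
    rw [extAct_toQ] at this
    exact this

theorem finp_iff (ρ : GK K →* AddMonoid.End M)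
    (_hρ : ∀ x : M, IsOpen {g : GK K | ρ g x = x}) (H : Subgroup (GK K)) (p : ℕ) :
    Finite {x : Sel ρ H // p • x = 0} ↔
      FinShp (Prm (Kb K)) (extAct ρ) (H.map (toQ K)) p := by
  obtain ⟨φ, hφ, hφB⟩ := exists_restr ρ H
  let Z := Zsh (Prm (Kb K)) (extAct ρ) (H.map (toQ K))
  let B := Bsh (extAct ρ) (H.map (toQ K))
  let T : AddSubgroup (Sel ρ H) := (nsmulAddMonoidHom p).ker
  let Zp : AddSubgroup (GQ (Kb K) → M) := Z ⊓ B.comap (nsmulAddMonoidHom p)
  let q : selZ ρ H →+ Sel ρ H := QuotientAddGroup.mk' _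
  have hq : ∀ (z : selZ ρ H) (n : ℕ), n • q z = 0 ↔ n • (z : H → M) ∈ selB ρ H := by
    intro z n
    rw [← map_nsmul]
    change (QuotientAddGroup.mk (n • z) : Sel ρ H) = 0 ↔ _
    rw [QuotientAddGroup.eq_zero_iff, AddSubgroup.mem_addSubgroupOf]
    rfl
  let ψ : Zp →+ T :=
    { toFun := fun c => ⟨q (φ ⟨c.1, c.2.1⟩), (hq _ p).2 ((hφB _ p).2 c.2.2)⟩
      map_zero' := by
        apply Subtype.ext
        change q (φ 0) = 0
        rw [map_zero, map_zero]
      map_add' := fun c d => by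
        apply Subtype.ext
        change q (φ (⟨c.1, c.2.1⟩ + ⟨d.1, d.2.1⟩)) = q (φ ⟨c.1, c.2.1⟩) + q (φ ⟨d.1, d.2.1⟩)
        rw [map_add, map_add] }
  have hψ : Function.Surjective ψ := by
    rintro ⟨x, hx⟩
    obtain ⟨z, rfl⟩ := QuotientAddGroup.mk'_surjective _ x
    obtain ⟨c, rfl⟩ := hφ z
    refine ⟨⟨c.1, c.2, ?_⟩, rfl⟩
    have hx' : p • q (φ c) = 0 := hx
    exact (hφB c p).1 ((hq _ p).1 hx')
  have hker : ψ.ker = B.addSubgroupOf Zp := by
    ext c
    rw [AddMonoidHom.mem_ker, AddSubgroup.mem_addSubgroupOf]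
    have h1 : ψ c = 0 ↔ q (φ ⟨c.1, c.2.1⟩) = 0 := by
      constructor
      · intro h
        exact congrArg Subtype.val h
      · intro h
        exact Subtype.ext h
    have h2 := hq (φ ⟨c.1, c.2.1⟩) 1
    have h3 := hφB ⟨c.1, c.2.1⟩ 1
    rw [one_nsmul, one_nsmul] at h2 h3
    rw [h1, h2, h3]
  have hidx : B.relIndex Zp = Nat.card T := by
    have h1 := AddSubgroup.index_ker ψ
    rw [hker, AddMonoidHom.range_eq_top.2 hψ] at h1
    change (B.addSubgroupOf Zp).index = _
    rw [h1]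
    exact Nat.card_congr AddSubgroup.topEquiv.toEquiv
  change Finite T ↔ B.relIndex Zp ≠ 0
  rw [hidx]
  constructor
  · intro h
    exact Nat.card_pos.ne'
  · intro h
    exact Nat.finite_of_card_ne_zero h

theorem act_extP (ρ : GK K →* AddMonoid.End M)
    (hρ : ∀ x : M, IsOpen {g : GK K | ρ g x = x}) (H : Subgroup (GK K)) :
    ActP (H.map (toQ K)) (extAct ρ) := by
  constructor
  · rw [← map_one (toQ K), extAct_toQ, map_one]
    rfl
  · rintro _ ⟨g, -, rfl⟩ _ ⟨h, -, rfl⟩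
    rw [← map_mul, extAct_toQ, extAct_toQ, extAct_toQ, map_mul]
    rfl
  · intro x
    let U : Subgroup (GK K) :=
      { carrier := {g | ρ g x = x}
        one_mem' := by
          change ρ 1 x = x
          rw [map_one]
          rfl
        mul_mem' := by
          intro g h hg hh
          change ρ (g * h) x = x
          rw [map_mul]
          change ρ g (ρ h x) = x
          rw [hh, hg]
        inv_mem' := by
          intro g hg
          have hg' : ρ g x = x := hg
          have h1 : ρ g⁻¹ (ρ g x) = x := by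
            change (ρ g⁻¹ * ρ g) x = x
            rw [← map_mul, inv_mul_cancel, map_one]
            rfl
          rwa [hg'] at h1 }
    refine ⟨U.map (toQ K), isOpen_map U (hρ x), ?_⟩
    rintro _ ⟨⟨u, hu, rfl⟩, -⟩
    rw [extAct_toQ]
    exact hu

omit [NumberField K] in
theorem isClosed_gcyc (p : ℕ) [Fact p.Prime] : IsClosed (Gcyc K p : Set (GK K)) := by
  have h1 := cyclotomicCharacter.continuous p K (Kb K)
  have h2 : Continuous ((powMonoidHom (p - 1)).comp ((cyclotomicCharacter (Kb K) p).comp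
    (MulSemiringAction.toRingAut (GK K) (Kb K)))) := h1.pow (p - 1)
  exact isClosed_singleton.preimage h2

theorem sel_tors {p : ℕ} [Fact p.Prime] (W : WeierstrassCurve K) (x : FineSelmer p W) :
    ∃ n : ℕ, p ^ n • x = 0 := by
  obtain ⟨⟨c, hc⟩, rfl⟩ := QuotientAddGroup.mk'_surjective _ x
  have hcomp : CompactSpace (Gcyc K p) :=
    isCompact_iff_compactSpace.1 (isClosed_gcyc p).isCompact
  have hfin : (Set.range c).Finite := hc.1.range_finite
  have h1 : ∀ y ∈ Set.range c, ∃ n : ℕ, p ^ n • y = 0 := by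
    rintro y -
    obtain ⟨n, hn⟩ := y.2
    exact ⟨n, Subtype.ext hn⟩
  have h2 : ∃ n : ℕ, ∀ y ∈ Set.range c, p ^ n • y = 0 := by
    choose! f hf using h1
    obtain ⟨n, hn⟩ := (hfin.image f).bddAbove
    refine ⟨n, fun y hy => ?_⟩
    have h3 : f y ≤ n := hn ⟨y, hy, rfl⟩
    rw [← Nat.sub_add_cancel h3, pow_add, mul_nsmul', hf y hy]
    exact nsmul_zero _
  obtain ⟨n, hn⟩ := h2
  refine ⟨n, ?_⟩
  rw [← map_nsmul]
  have h4 : p ^ n • (⟨c, hc⟩ : selZ (torInfRep p W) (Gcyc K p)) = 0 := by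
    apply Subtype.ext
    funext g
    exact hn _ ⟨g, rfl⟩
  rw [h4, map_zero]

end

end Pool.Agent.Helper3.FS
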