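import Pool.Agent.Helper58.FS.Inf
import Pool.Agent.Helper58.IQ.Defs

/-!
# Primes of the ring of all algebraic integers: valuation rings, units at almost all primes
-/

set_option autoImplicit false

open scoped NumberField Pointwise
open NumberField

namespace Pool.Agent.Helper3.FS

open Pool.Agent.Helper58.IQ Pool.Agent.Helper58.FS

section gen

variable {Ω : Type*} [Field Ω] [CharZero Ω] [Algebra.IsAlgebraic ℚ Ω]

theorem alg_Z (z : Ω) : IsAlgebraic ℤ z :=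
  (IsFractionRing.isAlgebraic_iff ℤ ℚ Ω).2 (Algebra.IsAlgebraic.isAlgebraic z)

/-- an element of the algebraic closure is a quotient of an algebraic integer and an integer -/
theorem exists_frac (z : Ω) : ∃ (a : 𝓞 Ω) (m : ℕ), m ≠ 0 ∧ (m : Ω) * z = (a : Ω) := by
  obtain ⟨y, hy, hz⟩ := (alg_Z z).exists_integral_multiple
  have h1 : IsIntegral ℤ ((y.natAbs : Ω) * z) := by
    rcases Int.natAbs_eq y with h | h
    · have : ((y.natAbs : ℕ) : Ω) = (y : Ω) := by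
        conv_rhs => rw [h]
        simp
      rw [this, ← zsmul_eq_mul]
      exact hz
    · have : ((y.natAbs : ℕ) : Ω) = -(y : Ω) := by
        conv_rhs => rw [h]
        simp
      rw [this, neg_mul, ← zsmul_eq_mul]
      exact hz.neg
  exact ⟨⟨_, h1⟩, y.natAbs, Int.natAbs_ne_zero.2 hy, rfl⟩

theorem unit_almost' (z : Ω) (hz : z ≠ 0) :
    ∃ N : ℕ, N ≠ 0 ∧ ∀ P : Ideal (𝓞 Ω), P.IsPrime → (N : 𝓞 Ω) ∉ P →
      ∃ s t : 𝓞 Ω, s ∉ P ∧ t ∉ P ∧ z = (s : Ω) / t := by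
  obtain ⟨a, m, hm, ha⟩ := exists_frac z
  have hm' : (m : Ω) ≠ 0 := Nat.cast_ne_zero.2 hm
  have ha0 : (a : Ω) ≠ 0 := by
    rw [← ha]
    exact mul_ne_zero hm' hz
  obtain ⟨c, n, hn, hc⟩ := exists_frac ((a : Ω)⁻¹)
  have h1 : (n : 𝓞 Ω) = a * c := by
    apply RingOfIntegers.ext
    have : (n : Ω) = (a : Ω) * (c : Ω) := by
      rw [← hc]
      field_simp
    simpa using this
  refine ⟨m * n, mul_ne_zero hm hn, fun P hP hN => ?_⟩
  have hmP : (m : 𝓞 Ω) ∉ P := fun h => hN (by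
    rw [Nat.cast_mul]
    exact P.mul_mem_right _ h)
  have hnP : (n : 𝓞 Ω) ∉ P := fun h => hN (by
    rw [Nat.cast_mul]
    exact P.mul_mem_left _ h)
  refine ⟨a, m, fun h => hnP ?_, hmP, ?_⟩
  · rw [h1]
    exact P.mul_mem_right _ h
  · rw [← ha]
    have : (((m : 𝓞 Ω)) : Ω) = (m : Ω) := by simp
    rw [this]
    field_simp

/-- one of two algebraic integers divides the other one locally -/
theorem dvd_total (P : Ideal (𝓞 Ω)) (hP : P.IsPrime) (h0 : P ≠ ⊥) (x : Ω) :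
    (∃ s t : 𝓞 Ω, t ∉ P ∧ x = (s : Ω) / t) ∨ ∃ s t : 𝓞 Ω, t ∉ P ∧ x⁻¹ = (s : Ω) / t := by
  by_cases hx : x = 0
  · left
    refine ⟨0, 1, fun h => hP.ne_top ((Ideal.eq_top_iff_one P).2 h), ?_⟩
    simp [hx]
  let E : IntermediateField ℚ Ω := IntermediateField.adjoin ℚ {x}
  have hfin : FiniteDimensional ℚ E :=
    IntermediateField.adjoin.finiteDimensional (Algebra.IsIntegral.isIntegral x)
  have hnf : NumberField E := { to_charZero := inferInstance, to_finiteDimensional := hfin }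
  let p : Ideal (𝓞 E) := P.comap (algebraMap (𝓞 E) (𝓞 Ω))
  have hp : p.IsPrime := Ideal.comap_isPrime _ P
  have hp0 : p ≠ ⊥ := by
    obtain ⟨a, ha, ha0⟩ := Submodule.exists_mem_ne_zero_of_ne_bot h0
    have ha0' : (a : Ω) ≠ 0 := by
      intro h
      exact ha0 (RingOfIntegers.ext h)
    obtain ⟨c, n, hn, hc⟩ := exists_frac ((a : Ω)⁻¹)
    have h1 : (n : 𝓞 Ω) = a * c := by
      apply RingOfIntegers.ext
      have : (n : Ω) = (a : Ω) * (c : Ω) := by
        rw [← hc]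
        field_simp
      simpa using this
    intro h
    have h2 : (n : 𝓞 E) ∈ p := by
      change algebraMap (𝓞 E) (𝓞 Ω) n ∈ P
      rw [map_natCast, h1]
      exact P.mul_mem_right _ ha
    rw [h, Ideal.mem_bot] at h2
    exact hn (by exact_mod_cast h2)
  have hdvr := IsLocalization.AtPrime.isDiscreteValuationRing_of_dedekind_domain (𝓞 E) hp0
    (Localization.AtPrime p)
  obtain ⟨a, b, hb, hab⟩ := IsFractionRing.div_surjective (A := 𝓞 E)
    (⟨x, IntermediateField.mem_adjoin_simple_self ℚ x⟩ : E)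
  have hb0 : b ≠ 0 := nonZeroDivisors.ne_zero hb
  have hxab : x = ((algebraMap (𝓞 E) (𝓞 Ω) a : 𝓞 Ω) : Ω) / ((algebraMap (𝓞 E) (𝓞 Ω) b : 𝓞 Ω) : Ω) := by
    have := congrArg (algebraMap E Ω) hab
    rw [map_div₀] at this
    exact this.symm
  have key : ∀ a b : 𝓞 E, b ≠ 0 → algebraMap (𝓞 E) (Localization.AtPrime p) b ∣
      algebraMap (𝓞 E) (Localization.AtPrime p) a → ∃ s t : 𝓞 Ω, t ∉ P ∧
        ((algebraMap (𝓞 E) (𝓞 Ω) a : 𝓞 Ω) : Ω) / ((algebraMap (𝓞 E) (𝓞 Ω) b : 𝓞 Ω) : Ω) =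
          (s : Ω) / t := by
    rintro a b hb ⟨y, hy⟩
    obtain ⟨⟨c, t⟩, hct⟩ := IsLocalization.surj (M := p.primeCompl) y
    have h3 : algebraMap (𝓞 E) (Localization.AtPrime p) (a * t) =
        algebraMap (𝓞 E) (Localization.AtPrime p) (b * c) := by
      rw [map_mul, map_mul, hy, mul_assoc, hct]
    have h4 : a * t = b * c :=
      IsLocalization.injective _ (Ideal.primeCompl_le_nonZeroDivisors p) h3
    have ht0 : (t : 𝓞 E) ≠ 0 := fun h => t.2 (by rw [h]; exact p.zero_mem)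
    have hinj : Function.Injective (algebraMap (𝓞 E) (𝓞 Ω)) :=
      FaithfulSMul.algebraMap_injective _ _
    have hne : ∀ z : 𝓞 E, z ≠ 0 → ((algebraMap (𝓞 E) (𝓞 Ω) z : 𝓞 Ω) : Ω) ≠ 0 := by
      intro z hz h
      apply hz
      apply hinj
      rw [map_zero]
      exact RingOfIntegers.ext h
    refine ⟨algebraMap (𝓞 E) (𝓞 Ω) c, algebraMap (𝓞 E) (𝓞 Ω) t, t.2, ?_⟩
    rw [div_eq_div_iff (hne b hb) (hne t ht0)]
    have h5 := congrArg (fun z => ((algebraMap (𝓞 E) (𝓞 Ω) z : 𝓞 Ω) : Ω)) h4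
    simp only [map_mul] at h5
    rw [h5]
    ring
  have ha0 : a ≠ 0 := by
    rintro rfl
    apply hx
    rw [hxab, map_zero]
    simp
  rcases ValuationRing.dvd_total (algebraMap (𝓞 E) (Localization.AtPrime p) b)
    (algebraMap (𝓞 E) (Localization.AtPrime p) a) with h | h
  · left
    rw [hxab]
    exact key a b hb0 h
  · right
    rw [hxab, inv_div]
    exact key b a ha0 h

theorem val' (P : Ideal (𝓞 Ω)) (hP : P.IsPrime) (h0 : P ≠ ⊥) : ∃ A : ValuationSubring Ω,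
      (∀ x, x ∈ A ↔ ∃ s t : 𝓞 Ω, t ∉ P ∧ x = (s : Ω) / t) ∧
      ∀ x, A.valuation x < 1 ↔ ∃ s t : 𝓞 Ω, s ∈ P ∧ t ∉ P ∧ x = (s : Ω) / t := by
  have hne : ∀ t : 𝓞 Ω, t ∉ P → (t : Ω) ≠ 0 := by
    intro t ht h
    apply ht
    have : t = 0 := RingOfIntegers.ext h
    rw [this]
    exact P.zero_mem
  have hmul : ∀ s t : 𝓞 Ω, s ∉ P → t ∉ P → s * t ∉ P := fun s t hs ht h =>
    (hP.mem_or_mem h).elim hs ht
  let R : Subring Ω :=
    { carrier := {x | ∃ s t : 𝓞 Ω, t ∉ P ∧ x = (s : Ω) / t}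
      mul_mem' := by
        rintro _ _ ⟨s, t, ht, rfl⟩ ⟨s', t', ht', rfl⟩
        refine ⟨s * s', t * t', hmul t t' ht ht', ?_⟩
        exact div_mul_div_comm _ _ _ _
      one_mem' := ⟨1, 1, fun h => hP.ne_top ((Ideal.eq_top_iff_one P).2 h), by simp⟩
      add_mem' := by
        rintro _ _ ⟨s, t, ht, rfl⟩ ⟨s', t', ht', rfl⟩
        refine ⟨s * t' + t * s', t * t', hmul t t' ht ht', ?_⟩
        exact div_add_div _ _ (hne t ht) (hne t' ht')
      zero_mem' := ⟨0, 1, fun h => hP.ne_top ((Ideal.eq_top_iff_one P).2 h), by simp⟩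
      neg_mem' := by
        rintro _ ⟨s, t, ht, rfl⟩
        refine ⟨-s, t, ht, ?_⟩
        exact (neg_div _ _).symm }
  have hA : ∀ x, x ∈ ValuationSubring.ofSubring R (dvd_total P hP h0) ↔
      ∃ s t : 𝓞 Ω, t ∉ P ∧ x = (s : Ω) / t := fun x => Iff.rfl
  refine ⟨ValuationSubring.ofSubring R (dvd_total P hP h0), hA, ?_⟩
  set A := ValuationSubring.ofSubring R (dvd_total P hP h0)
  intro x
  constructor
  · intro hv
    obtain ⟨s, t, ht, hx⟩ := (hA x).1 ((A.valuation_le_one_iff x).1 hv.le)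
    refine ⟨s, t, ?_, ht, hx⟩
    by_contra hs
    have h1 : x⁻¹ ∈ A := (hA _).2 ⟨t, s, hs, by rw [hx, inv_div]⟩
    have h2 := (A.valuation_le_one_iff _).2 h1
    have hx0 : x ≠ 0 := by
      rw [hx]
      exact div_ne_zero (hne s hs) (hne t ht)
    have h3 : A.valuation x * A.valuation x⁻¹ = 1 := by
      rw [← map_mul, mul_inv_cancel₀ hx0, map_one]
    have h4 : A.valuation x * A.valuation x⁻¹ < 1 := by
      calc A.valuation x * A.valuation x⁻¹ ≤ A.valuation x * 1 := by gcongr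
        _ < 1 := by rwa [mul_one]
    exact h4.ne h3
  · rintro ⟨s, t, hs, ht, hx⟩
    have hxA : x ∈ A := (hA x).2 ⟨s, t, ht, hx⟩
    refine lt_of_le_of_ne ((A.valuation_le_one_iff x).2 hxA) fun h1 => ?_
    have hx0 : x ≠ 0 := by
      rintro rfl
      rw [map_zero] at h1
      exact zero_ne_one h1
    have h2 : A.valuation x⁻¹ ≤ 1 := by
      rw [map_inv₀, h1, inv_one]
    obtain ⟨s', t', ht', hx'⟩ := (hA _).1 ((A.valuation_le_one_iff _).1 h2)
    have h3 : (t : Ω) * (t' : Ω) = (s : Ω) * (s' : Ω) := by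
      have h4 : ((s : Ω) / t) * ((s' : Ω) / t') = 1 := by
        rw [← hx, ← hx', mul_inv_cancel₀ hx0]
      rw [div_mul_div_comm, div_eq_one_iff_eq (mul_ne_zero (hne t ht) (hne t' ht'))] at h4
      exact h4.symm
    have h5 : t * t' = s * s' := by
      apply RingOfIntegers.ext
      exact h3
    exact hmul t t' ht ht' (by rw [h5]; exact P.mul_mem_right _ hs)

end gen

section K

variable {K : Type*} [Field K] [NumberField K]

theorem isAlg_Kb : Algebra.IsAlgebraic ℚ (Kb K) := .trans ℚ K _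

theorem val (P : Ideal (𝓞 (Kb K))) (hP : P.IsPrime)
    (h0 : P ≠ ⊥) : ∃ A : ValuationSubring (Kb K),
      (∀ x, x ∈ A ↔ ∃ s t : 𝓞 (Kb K), t ∉ P ∧ x = (s : Kb K) / t) ∧
      ∀ x, A.valuation x < 1 ↔ ∃ s t : 𝓞 (Kb K), s ∈ P ∧ t ∉ P ∧ x = (s : Kb K) / t :=
  have := isAlg_Kb (K := K)
  val' P hP h0

theorem unit_almost (z : Kb K) (hz : z ≠ 0) :
    ∃ N : ℕ, N ≠ 0 ∧ ∀ P : Ideal (𝓞 (Kb K)), P.IsPrime → (N : 𝓞 (Kb K)) ∉ P →
      ∃ s t : 𝓞 (Kb K), s ∉ P ∧ t ∉ P ∧ z = (s : Kb K) / t :=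
  have := isAlg_Kb (K := K)
  unit_almost' z hz

end K

end Pool.Agent.Helper3.FS
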